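import Mathlib

/-!
# The homotopical semantics of intuitionistic first-order logic is not complete

We formalise many-sorted algebraic signatures, first-order formulas in context, intuitionistic
natural deduction with explicit contexts (so that sorts may be empty), and the homotopical
interpretation of formulas in simplicial sets (Kan complexes).  We show that the sentence
  `(∀x:A ∃y:B, f(x,y) = g(x,y)) ⇒
     ∀x:A ∀x':A ∃y:B ∃y':B, (f(x,y) = g(x,y) ∧ f(x',y') = g(x',y')) ∧ (x = x' ⇒ y = y')`
is true in every structure of Kan complexes, but is not intuitionistically provable, not even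
after adding excluded middle for every sentence and inhabitedness of every sort as axioms.
-/

open CategoryTheory MonoidalCategory Opposite

universe u

namespace Pool.Agent.Helper162_hot

/-! ## Syntax -/

/-- A many-sorted algebraic signature: sorts and function symbols `f : A₁ ⋯ Aₙ → B`. -/
structure Signature where
  /-- sorts -/
  Srt : Type
  /-- function symbols -/
  Fn : Type
  /-- number of arguments -/
  arity : Fn → ℕ
  /-- sorts of the arguments -/
  dom : (f : Fn) → Fin (arity f) → Srt
  /-- sort of the value -/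
  cod : Fn → Srt

/-- Variables of sort `A` in a context (a list of sorts, the most recent variable first). -/
inductive Var {S : Type} : List S → S → Type
  | zero {Γ : List S} {A : S} : Var (A :: Γ) A
  | succ {Γ : List S} {A B : S} : Var Γ A → Var (B :: Γ) A

/-- Terms in context. -/
inductive Term (L : Signature) (Γ : List L.Srt) : L.Srt → Type
  | var {A : L.Srt} : Var Γ A → Term L Γ A
  | app (f : L.Fn) : (∀ i : Fin (L.arity f), Term L Γ (L.dom f i)) → Term L Γ (L.cod f)

/-- Formulas in context. -/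
inductive Formula (L : Signature) : List L.Srt → Type
  | top {Γ : List L.Srt} : Formula L Γ
  | bot {Γ : List L.Srt} : Formula L Γ
  | eq {Γ : List L.Srt} {A : L.Srt} : Term L Γ A → Term L Γ A → Formula L Γ
  | and {Γ : List L.Srt} : Formula L Γ → Formula L Γ → Formula L Γ
  | or {Γ : List L.Srt} : Formula L Γ → Formula L Γ → Formula L Γ
  | imp {Γ : List L.Srt} : Formula L Γ → Formula L Γ → Formula L Γ
  | all {Γ : List L.Srt} (A : L.Srt) : Formula L (A :: Γ) → Formula L Γ
  | ex {Γ : List L.Srt} (A : L.Srt) : Formula L (A :: Γ) → Formula L Γ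

variable {L : Signature}

/-- Negation abbreviates `φ ⇒ ⊥`. -/
def Formula.neg {Γ : List L.Srt} (φ : Formula L Γ) : Formula L Γ := .imp φ .bot

/-- Renaming of variables in a term. -/
def Term.rename {Γ Δ : List L.Srt} (r : ∀ A, Var Γ A → Var Δ A) :
    ∀ {A : L.Srt}, Term L Γ A → Term L Δ A
  | _, .var x => .var (r _ x)
  | _, .app f ts => .app f (fun i => (ts i).rename r)

/-- Substitution of terms for variables in a term. -/
def Term.subst {Γ Δ : List L.Srt} (s : ∀ A, Var Γ A → Term L Δ A) :
    ∀ {A : L.Srt}, Term L Γ A → Term L Δ A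
  | _, .var x => s _ x
  | _, .app f ts => .app f (fun i => (ts i).subst s)

/-- Extension of a substitution under a binder. -/
def lift {Γ Δ : List L.Srt} (s : ∀ A, Var Γ A → Term L Δ A) (B : L.Srt) :
    ∀ A, Var (B :: Γ) A → Term L (B :: Δ) A
  | _, .zero => .var .zero
  | _, .succ x => (s _ x).rename (fun _ y => .succ y)

/-- Capture-avoiding simultaneous substitution in a formula. -/
def Formula.subst : ∀ {Γ Δ : List L.Srt}, Formula L Γ → (∀ A, Var Γ A → Term L Δ A) → Formula L Δ
  | _, _, .top, _ => .top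
  | _, _, .bot, _ => .bot
  | _, _, .eq t t', s => .eq (t.subst s) (t'.subst s)
  | _, _, .and φ ψ, s => .and (φ.subst s) (ψ.subst s)
  | _, _, .or φ ψ, s => .or (φ.subst s) (ψ.subst s)
  | _, _, .imp φ ψ, s => .imp (φ.subst s) (ψ.subst s)
  | _, _, .all A φ, s => .all A (φ.subst (lift s A))
  | _, _, .ex A φ, s => .ex A (φ.subst (lift s A))

/-- The weakening substitution. -/
def wk {Γ : List L.Srt} (B : L.Srt) : ∀ A, Var Γ A → Term L (B :: Γ) A :=
  fun _ x => .var (.succ x)

/-- The substitution of a term for the most recent variable. -/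
def inst {Γ : List L.Srt} {B : L.Srt} (t : Term L Γ B) : ∀ A, Var (B :: Γ) A → Term L Γ A
  | _, .zero => t
  | _, .succ x => .var x

/-- The substitution out of the empty context. -/
def empt {Γ : List L.Srt} : ∀ A, Var ([] : List L.Srt) A → Term L Γ A := fun _ x => nomatch x

/-- Intuitionistic natural deduction with equality, in explicit contexts (sorts may be empty),
from a set `T` of sentences taken as axioms.  `Derives T Γ H φ` means that `φ` is derivable in
context `Γ` from the hypotheses `H`. -/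
inductive Derives (T : Set (Formula L [])) :
    (Γ : List L.Srt) → List (Formula L Γ) → Formula L Γ → Prop
  | ax {Γ H θ} : θ ∈ T → Derives T Γ H (θ.subst empt)
  | hyp {Γ H φ} : φ ∈ H → Derives T Γ H φ
  | topI {Γ H} : Derives T Γ H .top
  | botE {Γ H φ} : Derives T Γ H .bot → Derives T Γ H φ
  | andI {Γ H φ ψ} : Derives T Γ H φ → Derives T Γ H ψ → Derives T Γ H (.and φ ψ)
  | andE₁ {Γ H φ ψ} : Derives T Γ H (.and φ ψ) → Derives T Γ H φ
  | andE₂ {Γ H φ ψ} : Derives T Γ H (.and φ ψ) → Derives T Γ H ψ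
  | orI₁ {Γ H φ ψ} : Derives T Γ H φ → Derives T Γ H (.or φ ψ)
  | orI₂ {Γ H φ ψ} : Derives T Γ H ψ → Derives T Γ H (.or φ ψ)
  | orE {Γ H φ ψ χ} : Derives T Γ H (.or φ ψ) → Derives T Γ (φ :: H) χ →
      Derives T Γ (ψ :: H) χ → Derives T Γ H χ
  | impI {Γ H φ ψ} : Derives T Γ (φ :: H) ψ → Derives T Γ H (.imp φ ψ)
  | impE {Γ H φ ψ} : Derives T Γ H (.imp φ ψ) → Derives T Γ H φ → Derives T Γ H ψ
  | allI {Γ H A} {φ : Formula L (A :: Γ)} : Derives T (A :: Γ) (H.map (fun ψ => ψ.subst (wk A))) φ →
      Derives T Γ H (.all A φ)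
  | allE {Γ H A} {φ : Formula L (A :: Γ)} (t : Term L Γ A) : Derives T Γ H (.all A φ) → Derives T Γ H (φ.subst (inst t))
  | exI {Γ H A} {φ : Formula L (A :: Γ)} (t : Term L Γ A) : Derives T Γ H (φ.subst (inst t)) → Derives T Γ H (.ex A φ)
  | exE {Γ H A} {φ : Formula L (A :: Γ)} {χ : Formula L Γ} : Derives T Γ H (.ex A φ) →
      Derives T (A :: Γ) (φ :: H.map (fun ψ => ψ.subst (wk A))) (χ.subst (wk A)) →
      Derives T Γ H χ
  | eqI {Γ H A} (t : Term L Γ A) : Derives T Γ H (.eq t t)
  | eqE {Γ H A} {φ : Formula L (A :: Γ)} (t t' : Term L Γ A) : Derives T Γ H (.eq t t') →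
      Derives T Γ H (φ.subst (inst t)) → Derives T Γ H (φ.subst (inst t'))

/-- Intuitionistic provability of a sentence. -/
def Provable (φ : Formula L []) : Prop := Derives ∅ [] [] φ

/-- The extra axioms: excluded middle for every sentence, and inhabitedness of every sort. -/
def Extra (L : Signature) : Set (Formula L []) :=
  {θ | (∃ φ : Formula L [], θ = .or φ φ.neg) ∨ ∃ A : L.Srt, θ = .ex A .top}

/-! ## Simplicial sets and their slices -/

section SliceConstructions

/-- A simplicial set from plain data. -/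
def mkSSet (obj : SimplexCategoryᵒᵖ → Type u) (map : ∀ n m, (n ⟶ m) → obj n → obj m)
    (map_id : ∀ n x, map n n (𝟙 n) x = x)
    (map_comp : ∀ n m k (θ : n ⟶ m) (ψ : m ⟶ k) x,
      map n k (θ ≫ ψ) x = map m k ψ (map n m θ x)) : SSet.{u} where
  obj := obj
  map θ := ↾(map _ _ θ)
  map_id n := by
    ext x
    exact map_id n x
  map_comp θ ψ := by
    ext x
    exact map_comp _ _ _ θ ψ x

/-- A morphism of simplicial sets from its action on simplices. -/
def mkHom {X Y : SSet.{u}} (f : ∀ n, X.obj n → Y.obj n)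
    (nat : ∀ (n m : SimplexCategoryᵒᵖ) (θ : n ⟶ m) (x : X.obj n),
      f m (X.map θ x) = Y.map θ (f n x)) : X ⟶ Y where
  app n := ↾(f n)
  naturality n m θ := by
    ext x
    exact nat n m θ x

theorem map_id_apply (X : SSet.{u}) (n : SimplexCategoryᵒᵖ) (x : X.obj n) :
    X.map (𝟙 n) x = x := by simp

theorem map_comp_apply (X : SSet.{u}) {n m k : SimplexCategoryᵒᵖ} (θ : n ⟶ m) (ψ : m ⟶ k)
    (x : X.obj n) : X.map (θ ≫ ψ) x = X.map ψ (X.map θ x) := by simp

theorem app_map {X Y : SSet.{u}} (f : X ⟶ Y) {n m : SimplexCategoryᵒᵖ} (θ : n ⟶ m)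
    (x : X.obj n) : f.app m (X.map θ x) = Y.map θ (f.app n x) :=
  NatTrans.naturality_apply f θ x

/-- The product of a finite family of simplicial sets. -/
def prodSSet {k : ℕ} (X : Fin k → SSet.{u}) : SSet.{u} :=
  mkSSet (fun n => ∀ i, (X i).obj n) (fun _ _ θ v i => (X i).map θ (v i))
    (fun n v => funext fun i => map_id_apply (X i) n (v i))
    (fun _ _ _ θ ψ v => funext fun i => map_comp_apply (X i) θ ψ (v i))

/-- The fibre product `X ×_Z Y`. -/
def pbk {X Y Z : SSet.{u}} (f : X ⟶ Z) (g : Y ⟶ Z) : SSet.{u} :=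
  mkSSet (fun n => {p : X.obj n × Y.obj n // f.app n p.1 = g.app n p.2})
    (fun _ _ θ p => ⟨(X.map θ p.1.1, Y.map θ p.1.2), by
      rw [app_map, app_map, p.2]⟩)
    (fun n p => Subtype.ext (Prod.ext (map_id_apply X n _) (map_id_apply Y n _)))
    (fun _ _ _ θ ψ p => Subtype.ext
      (Prod.ext (map_comp_apply X θ ψ _) (map_comp_apply Y θ ψ _)))

/-- First projection of a fibre product. -/
def pbkFst {X Y Z : SSet.{u}} (f : X ⟶ Z) (g : Y ⟶ Z) : pbk f g ⟶ X :=
  mkHom (fun _ p => p.1.1) (fun _ _ _ _ => rfl)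

/-- The disjoint union. -/
def sumSSet (X Y : SSet.{u}) : SSet.{u} :=
  mkSSet (fun n => X.obj n ⊕ Y.obj n)
    (fun _ _ θ => Sum.map (fun x => X.map θ x) (fun y => Y.map θ y))
    (fun n p => by
      rcases p with p | p
      · exact congrArg Sum.inl (map_id_apply X n p)
      · exact congrArg Sum.inr (map_id_apply Y n p))
    (fun _ _ _ θ ψ p => by
      rcases p with p | p
      · exact congrArg Sum.inl (map_comp_apply X θ ψ p)
      · exact congrArg Sum.inr (map_comp_apply Y θ ψ p))

/-- The empty simplicial set. -/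
def emptySSet : SSet.{u} :=
  mkSSet (fun _ => PEmpty) (fun _ _ _ x => x) (fun _ _ => rfl) (fun _ _ _ _ _ _ => rfl)

variable {X : SSet.{u}}

/-- `⊤`: the identity. -/
def topO (X : SSet.{u}) : Over X := Over.mk (𝟙 X)

/-- `⊥`: the empty simplicial set. -/
def botO (X : SSet.{u}) : Over X :=
  Over.mk (Y := emptySSet) (mkHom (fun _ x => x.elim) (fun _ _ _ x => x.elim))

/-- Product in the slice. -/
def andO (F G : Over X) : Over X := Over.mk (pbkFst F.hom G.hom ≫ F.hom)

/-- Coproduct in the slice. -/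
def orO (F G : Over X) : Over X :=
  Over.mk (Y := sumSSet F.left G.left)
    (mkHom (fun n p => Sum.elim (fun a => F.hom.app n a) (fun a => G.hom.app n a) p)
    (fun _ _ θ p => by
      rcases p with p | p
      · exact app_map F.hom θ p
      · exact app_map G.hom θ p))

/-- An `n`-simplex of the exponential `G ^ F` in the slice over `X`: an `n`-simplex `base` of `X`
together with a natural family of maps, over the faces and degeneracies of `base`,
from simplices of `F` to simplices of `G`; i.e. a map `Δ[n] ×_X F ⟶ G` over `X`. -/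
structure ExpSimplex (F G : Over X) (n : SimplexCategoryᵒᵖ) where
  base : X.obj n
  fn : ∀ (m : SimplexCategoryᵒᵖ) (θ : n ⟶ m) (a : F.left.obj m),
    F.hom.app m a = X.map θ base → G.left.obj m
  isOver : ∀ m θ a h, G.hom.app m (fn m θ a h) = X.map θ base
  nat : ∀ m k θ (ψ : m ⟶ k) a h h',
    fn k (θ ≫ ψ) (F.left.map ψ a) h' = G.left.map ψ (fn m θ a h)

theorem ExpSimplex.ext' {F G : Over X} {n : SimplexCategoryᵒᵖ} {s t : ExpSimplex F G n}
    (h : s.base = t.base) (h' : ∀ m θ a h₁ h₂, s.fn m θ a h₁ = t.fn m θ a h₂) : s = t := by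
  obtain ⟨b, f, _, _⟩ := s
  obtain ⟨b', f', _, _⟩ := t
  obtain rfl : b = b' := h
  obtain rfl : f = f' := by
    funext m θ a h₁
    exact h' m θ a h₁ h₁
  rfl

/-- Restriction of simplices of the exponential. -/
def ExpSimplex.map {F G : Over X} {n n' : SimplexCategoryᵒᵖ} (θ₀ : n ⟶ n')
    (s : ExpSimplex F G n) : ExpSimplex F G n' where
  base := X.map θ₀ s.base
  fn m θ a h := s.fn m (θ₀ ≫ θ) a (by rw [h, map_comp_apply])
  isOver m θ a h := by rw [s.isOver, map_comp_apply]
  nat m k θ ψ a h h' := by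
    have := s.nat m k (θ₀ ≫ θ) ψ a (by rw [h, map_comp_apply])
      (by rw [h', Category.assoc, map_comp_apply X θ₀])
    simpa only [Category.assoc] using this

/-- The exponential in the slice. -/
def impO (F G : Over X) : Over X :=
  Over.mk (Y := mkSSet (ExpSimplex F G) (fun _ _ θ s => s.map θ)
    (fun n s => ExpSimplex.ext' (map_id_apply X n _) (fun m θ a h₁ h₂ => by
      simp only [ExpSimplex.map, Category.id_comp]))
    (fun n m k θ ψ s => ExpSimplex.ext' (map_comp_apply X θ ψ _) (fun m θ a h₁ h₂ => by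
      simp only [ExpSimplex.map, Category.assoc])))
    (mkHom (fun _ s => s.base) (fun _ _ _ _ => rfl))

/-- An `n`-simplex of the dependent product of `F` (over `Y`) along `π : Y ⟶ X`: an `n`-simplex
`base` of `X` together with a natural family of simplices of `F` over the simplices of `Y` lying
over the faces and degeneracies of `base`; i.e. a map `Δ[n] ×_X Y ⟶ F` over `Y`. -/
structure PiSimplex {Y : SSet.{u}} (π : Y ⟶ X) (F : Over Y) (n : SimplexCategoryᵒᵖ) where
  base : X.obj n
  fn : ∀ (m : SimplexCategoryᵒᵖ) (θ : n ⟶ m) (y : Y.obj m), π.app m y = X.map θ base → F.left.obj m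
  isOver : ∀ m θ y h, F.hom.app m (fn m θ y h) = y
  nat : ∀ m k θ (ψ : m ⟶ k) y h h', fn k (θ ≫ ψ) (Y.map ψ y) h' = F.left.map ψ (fn m θ y h)

theorem PiSimplex.ext' {Y : SSet.{u}} {π : Y ⟶ X} {F : Over Y} {n : SimplexCategoryᵒᵖ}
    {s t : PiSimplex π F n}
    (h : s.base = t.base) (h' : ∀ m θ a h₁ h₂, s.fn m θ a h₁ = t.fn m θ a h₂) : s = t := by
  obtain ⟨b, f, _, _⟩ := s
  obtain ⟨b', f', _, _⟩ := t
  obtain rfl : b = b' := h
  obtain rfl : f = f' := by
    funext m θ a h₁
    exact h' m θ a h₁ h₁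
  rfl

/-- Restriction of simplices of the dependent product. -/
def PiSimplex.map {Y : SSet.{u}} {π : Y ⟶ X} {F : Over Y} {n n' : SimplexCategoryᵒᵖ}
    (θ₀ : n ⟶ n') (s : PiSimplex π F n) : PiSimplex π F n' where
  base := X.map θ₀ s.base
  fn m θ a h := s.fn m (θ₀ ≫ θ) a (by rw [h, map_comp_apply])
  isOver m θ a h := by rw [s.isOver]
  nat m k θ ψ a h h' := by
    have := s.nat m k (θ₀ ≫ θ) ψ a (by rw [h, map_comp_apply])
      (by rw [h', Category.assoc, map_comp_apply X θ₀])
    simpa only [Category.assoc] using this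

/-- The dependent product along `π`: the right adjoint of pulling back along `π`. -/
def piO {Y : SSet.{u}} (π : Y ⟶ X) (F : Over Y) : Over X :=
  Over.mk (Y := mkSSet (PiSimplex π F) (fun _ _ θ s => s.map θ)
    (fun n s => PiSimplex.ext' (map_id_apply X n _) (fun m θ a h₁ h₂ => by
      simp only [PiSimplex.map, Category.id_comp]))
    (fun n m k θ ψ s => PiSimplex.ext' (map_comp_apply X θ ψ _) (fun m θ a h₁ h₂ => by
      simp only [PiSimplex.map, Category.assoc])))
    (mkHom (fun _ s => s.base) (fun _ _ _ _ => rfl))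

/-- The dependent sum along `π`: the left adjoint of pulling back along `π`. -/
def sigO {Y : SSet.{u}} (π : Y ⟶ X) (F : Over Y) : Over X := Over.mk (F.hom ≫ π)

/-- The standard 1-simplex `Δ[1]`. -/
abbrev I1 : SSet.{u} := SSet.stdSimplex.{u}.obj (SimplexCategory.mk 1)

/-- Evaluation at the vertex `0` of the interval, `X^I ⟶ X`. -/
noncomputable def ev0 (A : SSet.{u}) : (ihom I1.{u}).obj A ⟶ A :=
  SSet.ι₀ ≫ (β_ _ _).hom ≫ (ihom.ev I1.{u}).app A

/-- Evaluation at the vertex `1` of the interval, `X^I ⟶ X`. -/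
noncomputable def ev1 (A : SSet.{u}) : (ihom I1.{u}).obj A ⟶ A :=
  SSet.ι₁ ≫ (β_ _ _).hom ≫ (ihom.ev I1.{u}).app A

/-- The path-space map `X^I ⟶ X × X`. -/
noncomputable def pathMap (A : SSet.{u}) :
    (ihom I1.{u}).obj A ⟶ A ⊗ A :=
  CartesianMonoidalCategory.lift (ev0 A) (ev1 A)

/-- The pullback of the path-space map `A^I ⟶ A × A` along `⟨s,t⟩ : X ⟶ A × A`. -/
noncomputable def eqO {A : SSet.{u}} (s t : X ⟶ A) : Over X :=
  Over.mk (pbkFst (CartesianMonoidalCategory.lift s t) (pathMap A))

end SliceConstructions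

/-! ## The homotopical interpretation -/

/-- A structure of simplicial sets for the signature `L`. -/
structure SStructure (L : Signature) where
  /-- the simplicial set of each sort -/
  car : L.Srt → SSet.{u}
  /-- the simplicial map of each function symbol -/
  fn : ∀ f : L.Fn, prodSSet (fun i => car (L.dom f i)) ⟶ car (L.cod f)

/-- The product `M(A₁) × ⋯ × M(Aₙ)` interpreting a context. -/
def SStructure.ctx (M : SStructure.{u} L) : List L.Srt → SSet.{u}
  | [] => 𝟙_ SSet.{u}
  | A :: Γ => M.car A ⊗ M.ctx Γ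

/-- The projection forgetting the most recent variable. -/
def SStructure.proj (M : SStructure.{u} L) (A : L.Srt) (Γ : List L.Srt) :
    M.ctx (A :: Γ) ⟶ M.ctx Γ :=
  CartesianMonoidalCategory.snd (M.car A) (M.ctx Γ)

/-- Interpretation of a variable: a product projection. -/
def SStructure.varI (M : SStructure.{u} L) : ∀ {Γ : List L.Srt} {A : L.Srt}, Var Γ A →
    (M.ctx Γ ⟶ M.car A)
  | _, _, .zero => CartesianMonoidalCategory.fst _ _
  | _, _, .succ x => M.proj _ _ ≫ M.varI x

/-- Interpretation of a term. -/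
def SStructure.termI (M : SStructure.{u} L) {Γ : List L.Srt} : ∀ {A : L.Srt}, Term L Γ A →
    (M.ctx Γ ⟶ M.car A)
  | _, .var x => M.varI x
  | _, .app f ts => mkHom (Y := prodSSet (fun i => M.car (L.dom f i)))
      (fun n z i => (M.termI (ts i)).app n z)
      (fun _ _ θ z => funext fun i => app_map (M.termI (ts i)) θ z) ≫ M.fn f

/-- The homotopical interpretation of a formula in context `Γ`, as an object of the slice over
`M(Γ)`. -/
noncomputable def SStructure.interp (M : SStructure.{u} L) : ∀ {Γ : List L.Srt}, Formula L Γ →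
    Over (M.ctx Γ)
  | _, .top => topO _
  | _, .bot => botO _
  | _, .eq s t => eqO (M.termI s) (M.termI t)
  | _, .and φ ψ => andO (M.interp φ) (M.interp ψ)
  | _, .or φ ψ => orO (M.interp φ) (M.interp ψ)
  | _, .imp φ ψ => impO (M.interp φ) (M.interp ψ)
  | Γ, .all A φ => piO (M.proj A Γ) (M.interp φ)
  | Γ, .ex A φ => sigO (M.proj A Γ) (M.interp φ)

/-- A sentence is true in `M` if its interpretation is a non-empty simplicial set. -/
def SStructure.TrueIn (M : SStructure.{u} L) (φ : Formula L []) : Prop :=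
  ∃ n : SimplexCategoryᵒᵖ, Nonempty ((M.interp φ).left.obj n)

/-- `M` is a structure in `Kan`: every sort is a Kan complex (possibly empty). -/
def SStructure.IsKan (M : SStructure.{u} L) : Prop := ∀ A, SSet.KanComplex (M.car A)

end Pool.Agent.Helper162_hot
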