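import Pool.Agent.Helper162_hot.Defs

/-!
# Proofs for the incompleteness of the homotopical semantics
-/

open CategoryTheory MonoidalCategory Opposite

universe u

namespace Pool.Agent.Helper162_hot

variable {L : Signature}

/-! ## A sound class of countermodels: sets with an idempotent endomorphism -/

/-- A structure in the topos of sets with an idempotent. -/
structure EModel (L : Signature) where
  car : L.Srt → Type
  e : ∀ A, car A → car A
  idem : ∀ A x, e A (e A x) = e A x
  fn : ∀ f : L.Fn, (∀ i, car (L.dom f i)) → car (L.cod f)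
  equi : ∀ f v, e _ (fn f v) = fn f (fun i => e _ (v i))

variable (M : EModel L)

/-- Valuations. -/
def Env (M : EModel L) (Γ : List L.Srt) : Type := ∀ A, Var Γ A → M.car A

variable {M}

/-- The idempotent on valuations. -/
def Env.e {Γ : List L.Srt} (ρ : Env M Γ) : Env M Γ := fun A x => M.e A (ρ A x)

/-- Extension of a valuation. -/
def Env.cons {Γ : List L.Srt} {B : L.Srt} (b : M.car B) (ρ : Env M Γ) : Env M (B :: Γ)
  | _, .zero => b
  | _, .succ x => ρ _ x

/-- The empty valuation. -/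
def Env.nil : Env M [] := fun _ x => nomatch x

/-- Value of a term. -/
def Term.eval {Γ : List L.Srt} (ρ : Env M Γ) : ∀ {A : L.Srt}, Term L Γ A → M.car A
  | _, .var x => ρ _ x
  | _, .app f ts => M.fn f (fun i => (ts i).eval ρ)

/-- Kripke-Joyal forcing in the topos of sets with an idempotent. -/
def Sat : ∀ {Γ : List L.Srt}, Formula L Γ → Env M Γ → Prop
  | _, .top, _ => True
  | _, .bot, _ => False
  | _, .eq t t', ρ => t.eval ρ = t'.eval ρ
  | _, .and φ ψ, ρ => Sat φ ρ ∧ Sat ψ ρ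
  | _, .or φ ψ, ρ => Sat φ ρ ∨ Sat ψ ρ
  | _, .imp φ ψ, ρ => (Sat φ ρ → Sat ψ ρ) ∧ (Sat φ ρ.e → Sat ψ ρ.e)
  | _, .all A φ, ρ => (∀ a : M.car A, Sat φ (ρ.cons a)) ∧ (∀ a : M.car A, Sat φ (ρ.e.cons a))
  | _, .ex A φ, ρ => ∃ a : M.car A, Sat φ (ρ.cons a)

theorem Env.e_e {Γ : List L.Srt} (ρ : Env M Γ) : ρ.e.e = ρ.e := by
  funext A x; exact M.idem A _

theorem Env.e_cons {Γ : List L.Srt} {B : L.Srt} (b : M.car B) (ρ : Env M Γ) :
    (ρ.cons b).e = ρ.e.cons (M.e B b) := by
  funext A x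
  cases x <;> rfl

theorem Term.eval_e {Γ : List L.Srt} (ρ : Env M Γ) {A : L.Srt} (t : Term L Γ A) :
    t.eval ρ.e = M.e A (t.eval ρ) := by
  induction t with
  | var x => rfl
  | app f ts ih =>
    simp only [Term.eval, M.equi]
    congr 1
    funext i
    exact ih i

theorem Sat.mono {Γ : List L.Srt} (φ : Formula L Γ) :
    ∀ ρ : Env M Γ, Sat φ ρ → Sat φ ρ.e := by
  induction φ with
  | top => intro ρ h; exact h
  | bot => intro ρ h; exact h
  | eq t t' => intro ρ h; simp only [Sat, Term.eval_e] at h ⊢; rw [h]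
  | and φ ψ ihφ ihψ => intro ρ h; exact ⟨ihφ ρ h.1, ihψ ρ h.2⟩
  | or φ ψ ihφ ihψ => intro ρ h; exact h.imp (ihφ ρ) (ihψ ρ)
  | imp φ ψ ihφ ihψ =>
    intro ρ h
    refine ⟨h.2, ?_⟩
    rw [Env.e_e]; exact h.2
  | all A φ ih =>
    intro ρ h
    refine ⟨h.2, ?_⟩
    rw [Env.e_e]; exact h.2
  | ex A φ ih =>
    intro ρ h
    obtain ⟨a, ha⟩ := h
    refine ⟨M.e A a, ?_⟩
    rw [← Env.e_cons]
    exact ih _ ha

theorem Term.eval_rename {Γ Δ : List L.Srt} (r : ∀ A, Var Γ A → Var Δ A) (ρ : Env M Δ)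
    {A : L.Srt} (t : Term L Γ A) : (t.rename r).eval ρ = t.eval (M := M) (fun A x => ρ A (r A x)) := by
  induction t with
  | var x => rfl
  | app f ts ih =>
    simp only [Term.rename, Term.eval]
    congr 1
    funext i
    exact ih i

theorem Term.eval_subst {Γ Δ : List L.Srt} (s : ∀ A, Var Γ A → Term L Δ A) (ρ : Env M Δ)
    {A : L.Srt} (t : Term L Γ A) :
    (t.subst s).eval ρ = t.eval (M := M) (fun A x => (s A x).eval ρ) := by
  induction t with
  | var x => rfl
  | app f ts ih =>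
    simp only [Term.subst, Term.eval]
    congr 1
    funext i
    exact ih i

theorem eval_lift {Γ Δ : List L.Srt} (s : ∀ A, Var Γ A → Term L Δ A) (ρ : Env M Δ)
    {B : L.Srt} (b : M.car B) :
    (fun A x => (lift s B A x).eval (ρ.cons b) : Env M (B :: Γ)) =
      Env.cons b (fun A x => (s A x).eval ρ : Env M Γ) := by
  funext A x
  cases x with
  | zero => rfl
  | succ x =>
    simp only [lift, Term.eval_rename]
    rfl

theorem eval_e_env {Γ Δ : List L.Srt} (s : ∀ A, Var Γ A → Term L Δ A) (ρ : Env M Δ) :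
    (fun A x => (s A x).eval ρ.e : Env M Γ) = Env.e (fun A x => (s A x).eval ρ : Env M Γ) := by
  funext A x
  exact Term.eval_e ρ (s A x)

theorem Sat.subst {Γ : List L.Srt} (φ : Formula L Γ) :
    ∀ {Δ : List L.Srt} (s : ∀ A, Var Γ A → Term L Δ A) (ρ : Env M Δ),
      Sat (φ.subst s) ρ ↔ Sat φ (fun A x => (s A x).eval ρ : Env M Γ) := by
  induction φ with
  | top => intro Δ s ρ; exact Iff.rfl
  | bot => intro Δ s ρ; exact Iff.rfl
  | eq t t' => intro Δ s ρ; simp only [Formula.subst, Sat, Term.eval_subst]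
  | and φ ψ ihφ ihψ => intro Δ s ρ; simp only [Formula.subst, Sat, ihφ, ihψ]
  | or φ ψ ihφ ihψ => intro Δ s ρ; simp only [Formula.subst, Sat, ihφ, ihψ]
  | imp φ ψ ihφ ihψ =>
    intro Δ s ρ; simp only [Formula.subst, Sat, ihφ, ihψ, eval_e_env]
  | all A φ ih =>
    intro Δ s ρ; simp only [Formula.subst, Sat, ih, eval_lift, eval_e_env]
  | ex A φ ih =>
    intro Δ s ρ; simp only [Formula.subst, Sat, ih, eval_lift]

theorem Sat.wk {Γ : List L.Srt} (φ : Formula L Γ) {B : L.Srt} (b : M.car B) (ρ : Env M Γ) :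
    Sat (φ.subst (wk B)) (ρ.cons b) ↔ Sat φ ρ := by
  rw [Sat.subst]; rfl

theorem Sat.inst {Γ : List L.Srt} {B : L.Srt} (φ : Formula L (B :: Γ)) (t : Term L Γ B)
    (ρ : Env M Γ) : Sat (φ.subst (inst t)) ρ ↔ Sat φ (ρ.cons (t.eval ρ)) := by
  rw [Sat.subst]
  have : (fun A x => (Helper162_hot.inst t A x).eval ρ : Env M (B :: Γ))
      = ρ.cons (t.eval ρ) := by
    funext A x
    cases x <;> rfl
  rw [this]

/-- Soundness. -/
theorem soundness {T : Set (Formula L [])} (hT : ∀ θ ∈ T, Sat θ (Env.nil : Env M []))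
    {Γ : List L.Srt} {H : List (Formula L Γ)} {φ : Formula L Γ} (d : Derives T Γ H φ) :
    ∀ ρ : Env M Γ, (∀ ψ ∈ H, Sat ψ ρ) → Sat φ ρ := by
  induction d with
  | @ax Γ H θ h =>
    intro ρ _
    rw [Sat.subst]
    have : (fun A x => (empt (Γ := Γ) A x).eval ρ : Env M []) = Env.nil := by
      funext A x; cases x
    rw [this]
    exact hT θ h
  | hyp h => intro ρ hρ; exact hρ _ h
  | topI => intro ρ _; trivial
  | botE _ ih => intro ρ hρ; exact (ih ρ hρ).elim
  | andI _ _ ih₁ ih₂ => intro ρ hρ; exact ⟨ih₁ ρ hρ, ih₂ ρ hρ⟩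
  | andE₁ _ ih => intro ρ hρ; exact (ih ρ hρ).1
  | andE₂ _ ih => intro ρ hρ; exact (ih ρ hρ).2
  | orI₁ _ ih => intro ρ hρ; exact Or.inl (ih ρ hρ)
  | orI₂ _ ih => intro ρ hρ; exact Or.inr (ih ρ hρ)
  | orE _ _ _ ih ih₁ ih₂ =>
    intro ρ hρ
    rcases ih ρ hρ with h | h
    · exact ih₁ ρ (by intro ψ hψ; rcases List.mem_cons.1 hψ with rfl | hψ; exacts [h, hρ ψ hψ])
    · exact ih₂ ρ (by intro ψ hψ; rcases List.mem_cons.1 hψ with rfl | hψ; exacts [h, hρ ψ hψ])
  | impI _ ih =>
    intro ρ hρ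
    refine ⟨fun h => ih ρ ?_, fun h => ih ρ.e ?_⟩
    · intro ψ hψ; rcases List.mem_cons.1 hψ with rfl | hψ; exacts [h, hρ ψ hψ]
    · intro ψ hψ; rcases List.mem_cons.1 hψ with rfl | hψ
      exacts [h, Sat.mono _ _ (hρ ψ hψ)]
  | impE _ _ ih₁ ih₂ => intro ρ hρ; exact (ih₁ ρ hρ).1 (ih₂ ρ hρ)
  | allI _ ih =>
    intro ρ hρ
    refine ⟨fun a => ih _ ?_, fun a => ih _ ?_⟩
    · intro ψ hψ
      obtain ⟨χ, hχ, rfl⟩ := List.mem_map.1 hψ
      exact (Sat.wk χ a ρ).2 (hρ χ hχ)
    · intro ψ hψ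
      obtain ⟨χ, hχ, rfl⟩ := List.mem_map.1 hψ
      exact (Sat.wk χ a ρ.e).2 (Sat.mono _ _ (hρ χ hχ))
  | allE t _ ih => intro ρ hρ; exact (Sat.inst _ t ρ).2 ((ih ρ hρ).1 _)
  | exI t _ ih => intro ρ hρ; exact ⟨_, (Sat.inst _ t ρ).1 (ih ρ hρ)⟩
  | exE _ _ ih₁ ih₂ =>
    intro ρ hρ
    obtain ⟨a, ha⟩ := ih₁ ρ hρ
    refine (Sat.wk _ a ρ).1 (ih₂ (ρ.cons a) ?_)
    intro ψ hψ
    rcases List.mem_cons.1 hψ with rfl | hψ
    · exact ha
    · obtain ⟨χ, hχ, rfl⟩ := List.mem_map.1 hψ
      exact (Sat.wk χ a ρ).2 (hρ χ hχ)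
  | eqI t => intro ρ _; exact rfl
  | eqE t t' _ _ ih₁ ih₂ =>
    intro ρ hρ
    rw [Sat.inst]
    have h : t.eval ρ = t'.eval ρ := ih₁ ρ hρ
    rw [← h]
    exact (Sat.inst _ t ρ).1 (ih₂ ρ hρ)

/-- If every sort is inhabited, the extra axioms hold. -/
theorem extra_sat (hM : ∀ A, Nonempty (M.car A)) :
    ∀ θ ∈ Extra L, Sat θ (Env.nil : Env M []) := by
  rintro θ (⟨φ, rfl⟩ | ⟨A, rfl⟩)
  · have he : (Env.nil : Env M []).e = Env.nil := by funext A x; cases x
    by_cases h : Sat φ (Env.nil : Env M [])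
    · exact Or.inl h
    · refine Or.inr ⟨fun h' => h h', fun h' => h ?_⟩
      rwa [he] at h'
  · obtain ⟨a⟩ := hM A
    exact ⟨a, trivial⟩

/-! ## The signature, the sentence and its countermodel -/

/-- The three sorts. -/
inductive S3 | A | B | C
  deriving DecidableEq

/-- The signature with two function symbols `f, g : A B → C` (`false` and `true`). -/
@[reducible] def sig : Signature where
  Srt := S3
  Fn := Bool
  arity _ := 2
  dom _ i := match i with
    | ⟨0, _⟩ => S3.A
    | ⟨1, _⟩ => S3.B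
  cod _ := S3.C

/-- The term `f(x,y)` (for `b = false`) or `g(x,y)` (for `b = true`). -/
def tm {Γ : List S3} (b : Bool) (x : Var Γ S3.A) (y : Var Γ S3.B) : Term sig Γ S3.C :=
  Term.app (L := sig) b (fun i => match i with
    | ⟨0, _⟩ => Term.var x
    | ⟨1, _⟩ => Term.var y)

/-- The formula `R(x,y) := (f(x,y) = g(x,y))`. -/
def R {Γ : List S3} (x : Var Γ S3.A) (y : Var Γ S3.B) : Formula sig Γ :=
  .eq (tm false x y) (tm true x y)

/-- The premise `∀x ∃y, R(x,y)`. -/
def prem : Formula sig [] :=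
  .all S3.A (.ex S3.B (R (.succ .zero) .zero))

/-- The body `(R(x,y) ∧ R(x',y')) ∧ (x = x' ⇒ y = y')` in context `x, x', y, y'`
(the most recent variable `y'` comes first in the list). -/
def body : Formula sig [S3.B, S3.B, S3.A, S3.A] :=
  .and (.and (R (.succ (.succ (.succ .zero))) (.succ .zero)) (R (.succ (.succ .zero)) .zero))
    (.imp (.eq (A := S3.A) (.var (.succ (.succ (.succ .zero)))) (.var (.succ (.succ .zero))))
      (.eq (A := S3.B) (.var (.succ .zero)) (.var .zero)))

/-- The sentence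
`(∀x ∃y, R(x,y)) ⇒ ∀x ∀x' ∃y ∃y', (R(x,y) ∧ R(x',y')) ∧ (x = x' ⇒ y = y')`. -/
def choiceSentence : Formula sig [] :=
  .imp prem (.all S3.A (.all S3.A (.ex S3.B (.ex S3.B body))))

/-- Carriers of the countermodel. -/
def cmCar : S3 → Type
  | .A => Option Bool
  | .B => Bool
  | .C => Option Bool × Bool × Bool

/-- The relation: `some z` is related to `z` only, `none` is related to everything. -/
def cmR : Option Bool → Bool → Bool
  | none, _ => true
  | some z, y => z == y

/-- The idempotent of the countermodel. -/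
def cmE : ∀ s : S3, cmCar s → cmCar s
  | .A, _ => (none : Option Bool)
  | .B, y => y
  | .C, p => ((none, p.2.1, false) : Option Bool × Bool × Bool)

/-- The function symbols of the countermodel. -/
def cmFn (b : Bool) (x : Option Bool) (y : Bool) : Option Bool × Bool × Bool :=
  (x, y, b && !cmR x y)

/-- The countermodel. -/
@[reducible] def cm : EModel sig where
  car := cmCar
  e := cmE
  idem := by
    intro s x
    cases s <;> rfl
  fn := fun b v => cmFn b (v (0 : Fin 2)) (v (1 : Fin 2))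
  equi := by
    intro b v
    change ((none, _, false) : Option Bool × Bool × Bool) = (none, _, b && !cmR none _)
    simp only [cmR, Bool.not_true, Bool.and_false]
    rfl

theorem cm_R {Γ : List S3} (x : Var Γ S3.A) (y : Var Γ S3.B) (ρ : Env cm Γ) :
    Sat (R x y) ρ ↔ cmR (ρ S3.A x) (ρ S3.B y) = true := by
  change cmFn false (ρ S3.A x) (ρ S3.B y) = cmFn true (ρ S3.A x) (ρ S3.B y) ↔ _
  unfold cmFn
  cases h : cmR (ρ S3.A x) (ρ S3.B y)
  · constructor
    · intro h'
      have := congrArg (fun p : Option Bool × Bool × Bool => p.2.2) h'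
      exact absurd this (by simp)
    · intro h'; exact absurd h' (by decide)
  · constructor
    · intro _; rfl
    · intro _; rfl

theorem cm_prem : Sat prem (Env.nil : Env cm []) := by
  constructor
  · intro a
    cases a with
    | none => exact ⟨true, (cm_R _ _ _).2 rfl⟩
    | some z => exact ⟨z, (cm_R _ _ _).2 (beq_self_eq_true z)⟩
  · intro a
    cases a with
    | none => exact ⟨true, (cm_R _ _ _).2 rfl⟩
    | some z => exact ⟨z, (cm_R _ _ _).2 (beq_self_eq_true z)⟩

theorem cm_not : ¬ Sat choiceSentence (Env.nil : Env cm []) := by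
  intro h
  have h1 := h.1 cm_prem
  have h2 := (h1.1 (some true)).1 (some false)
  obtain ⟨y, y', ⟨hR, hR'⟩, hi⟩ := h2
  rw [cm_R] at hR hR'
  have hy : (true == y) = true := hR
  have hy' : (false == y') = true := hR'
  have e1 : y = true := (beq_iff_eq.1 hy).symm
  have e2 : y' = false := (beq_iff_eq.1 hy').symm
  subst e1 e2
  have h3 : (true : Bool) = false := hi.2 rfl
  exact Bool.noConfusion h3

theorem cm_inhabited : ∀ s, Nonempty (cm.car s) := by
  intro s
  cases s
  · exact ⟨(none : Option Bool)⟩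
  · exact ⟨true⟩
  · exact ⟨((none, true, true) : Option Bool × Bool × Bool)⟩

/-- The sentence is not derivable, even from the extra axioms. -/
theorem not_derivable : ¬ Derives (Extra sig) [] [] choiceSentence := by
  intro d
  exact cm_not (soundness (extra_sat cm_inhabited) d Env.nil (by simp))

theorem Derives.mono {L : Signature} {T T' : Set (Formula L [])} (hT : T ⊆ T')
    {Γ : List L.Srt} {H : List (Formula L Γ)} {φ : Formula L Γ} (d : Derives T Γ H φ) :
    Derives T' Γ H φ := by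
  induction d with
  | ax h => exact .ax (hT h)
  | hyp h => exact .hyp h
  | topI => exact .topI
  | botE _ ih => exact .botE ih
  | andI _ _ ih₁ ih₂ => exact .andI ih₁ ih₂
  | andE₁ _ ih => exact .andE₁ ih
  | andE₂ _ ih => exact .andE₂ ih
  | orI₁ _ ih => exact .orI₁ ih
  | orI₂ _ ih => exact .orI₂ ih
  | orE _ _ _ ih ih₁ ih₂ => exact .orE ih ih₁ ih₂
  | impI _ ih => exact .impI ih
  | impE _ _ ih₁ ih₂ => exact .impE ih₁ ih₂
  | allI _ ih => exact .allI ih
  | allE t _ ih => exact .allE t ih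
  | exI t _ ih => exact .exI t ih
  | exE _ _ ih₁ ih₂ => exact .exE ih₁ ih₂
  | eqI t => exact .eqI t
  | eqE t t' _ _ ih₁ ih₂ => exact .eqE t t' ih₁ ih₂

/-! ## Universal properties of the slice constructions -/

section Universal

variable {X : SSet.{u}}

theorem PiSimplex.fn_congr {Y : SSet.{u}} {π : Y ⟶ X} {F : Over Y} {n m : SimplexCategoryᵒᵖ}
    (s : PiSimplex π F n) {θ θ' : n ⟶ m} {y y' : Y.obj m} (hθ : θ = θ') (hy : y = y')
    (h : π.app m y = X.map θ s.base) (h' : π.app m y' = X.map θ' s.base) :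
    s.fn m θ y h = s.fn m θ' y' h' := by
  subst hθ hy
  rfl

theorem ExpSimplex.fn_congr {F G : Over X} {n m : SimplexCategoryᵒᵖ}
    (s : ExpSimplex F G n) {θ θ' : n ⟶ m} {a a' : F.left.obj m} (hθ : θ = θ') (ha : a = a')
    (h : F.hom.app m a = X.map θ s.base) (h' : F.hom.app m a' = X.map θ' s.base) :
    s.fn m θ a h = s.fn m θ' a' h' := by
  subst hθ ha
  rfl

/-- Simplices of a fibre product. -/
def pbkMk {X Y Z : SSet.{u}} (f : X ⟶ Z) (g : Y ⟶ Z) {n : SimplexCategoryᵒᵖ} (x : X.obj n)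
    (y : Y.obj n) (h : f.app n x = g.app n y) : (pbk f g).obj n := ⟨(x, y), h⟩

/-- Extensionality for simplices of a fibre product. -/
theorem pbk_ext {X Y Z : SSet.{u}} {f : X ⟶ Z} {g : Y ⟶ Z} {n : SimplexCategoryᵒᵖ}
    {p q : (pbk f g).obj n} (h1 : p.1.1 = q.1.1) (h2 : p.1.2 = q.1.2) : p = q :=
  Subtype.ext (Prod.ext h1 h2)

/-- Second projection of a fibre product. -/
def pbkSnd {X Y Z : SSet.{u}} (f : X ⟶ Z) (g : Y ⟶ Z) : pbk f g ⟶ Y :=
  mkHom (fun _ p => p.1.2) (fun _ _ _ _ => rfl)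

/-- Transposition for the dependent product: maps `T ×_X Y ⟶ F` over `Y` give maps
`T ⟶ Π_π F` over `X`. -/
def piCurry {T Y : SSet.{u}} {π : Y ⟶ X} {F : Over Y} (b : T ⟶ X) (h : pbk b π ⟶ F.left)
    (hh : ∀ n p, F.hom.app n (h.app n p) = p.1.2) : T ⟶ (piO π F).left :=
  mkHom (fun n t =>
    { base := b.app n t
      fn := fun m θ y hy => h.app m (pbkMk b π (T.map θ t) y (by rw [app_map, hy]))
      isOver := fun m θ y hy => hh m _
      nat := fun m k θ ψ y hy hy' => by
        refine Eq.trans ?_ (app_map h ψ (pbkMk b π (T.map θ t) y (by rw [app_map, hy])))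
        exact congrArg (h.app k) (pbk_ext (map_comp_apply T θ ψ t) rfl) })
    (fun n m θ t => PiSimplex.ext' (app_map b θ t) (fun k ψ y h₁ h₂ =>
      congrArg (h.app k) (pbk_ext (map_comp_apply T θ ψ t).symm rfl)))

/-- Evaluation for the dependent product: `Π_π F ×_X Y ⟶ F`. -/
def piEval {Y : SSet.{u}} (π : Y ⟶ X) (F : Over Y) : pbk (piO π F).hom π ⟶ F.left :=
  mkHom (fun n p => PiSimplex.fn p.1.1 n (𝟙 n) p.1.2 (by
      rw [map_id_apply]; exact p.2.symm))
    (fun n m θ p => by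
      have h1 := PiSimplex.nat p.1.1 n m (𝟙 n) θ p.1.2 (by rw [map_id_apply]; exact p.2.symm)
        (by rw [Category.id_comp, app_map]; exact congrArg _ p.2.symm)
      refine Eq.trans ?_ h1
      exact PiSimplex.fn_congr (s := p.1.1) (by simp) rfl _ _)

/-- Transposition for the exponential of the slice. -/
def impCurry {T : SSet.{u}} {F G : Over X} (b : T ⟶ X) (h : pbk b F.hom ⟶ G.left)
    (hh : ∀ n p, G.hom.app n (h.app n p) = b.app n p.1.1) : T ⟶ (impO F G).left :=
  mkHom (fun n t =>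
    { base := b.app n t
      fn := fun m θ y hy => h.app m (pbkMk b F.hom (T.map θ t) y (by rw [app_map, hy]))
      isOver := fun m θ y hy => (hh m _).trans (app_map b θ t)
      nat := fun m k θ ψ y hy hy' => by
        refine Eq.trans ?_ (app_map h ψ (pbkMk b F.hom (T.map θ t) y (by rw [app_map, hy])))
        exact congrArg (h.app k) (pbk_ext (map_comp_apply T θ ψ t) rfl) })
    (fun n m θ t => ExpSimplex.ext' (app_map b θ t) (fun k ψ y h₁ h₂ =>
      congrArg (h.app k) (pbk_ext (map_comp_apply T θ ψ t).symm rfl)))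

/-- Evaluation for the exponential of the slice. -/
def impEval (F G : Over X) : pbk (impO F G).hom F.hom ⟶ G.left :=
  mkHom (fun n p => ExpSimplex.fn p.1.1 n (𝟙 n) p.1.2 (by
      rw [map_id_apply]; exact p.2.symm))
    (fun n m θ p => by
      have h1 := ExpSimplex.nat p.1.1 n m (𝟙 n) θ p.1.2 (by rw [map_id_apply]; exact p.2.symm)
        (by rw [Category.id_comp, app_map]; exact congrArg _ p.2.symm)
      refine Eq.trans ?_ h1
      exact ExpSimplex.fn_congr (s := p.1.1) (by simp) rfl _ _)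

end Universal

/-! ## The sentence is true in every structure -/

section Truth

/-- A map `T × A ⟶ B` induces a map `T × A^I ⟶ B^I` (constant in the parameter from `T`). -/
noncomputable def pathFam {T A B : SSet.{u}} (c : T ⊗ A ⟶ B) :
    T ⊗ (ihom I1.{u}).obj A ⟶ (ihom I1.{u}).obj B :=
  MonoidalClosed.curry
    (mkHom (X := I1.{u} ⊗ (T ⊗ (ihom I1.{u}).obj A)) (Y := B)
      (fun n z => c.app n (z.2.1, ((ihom.ev I1.{u}).app A).app n (z.1, z.2.2)))
      (fun n m θ z => by
        refine Eq.trans ?_ (app_map c θ _)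
        refine congrArg (c.app m) (Prod.ext rfl ?_)
        exact app_map ((ihom.ev I1.{u}).app A) θ (z.1, z.2.2)))

theorem ev_pathFam {T A B : SSet.{u}} (c : T ⊗ A ⟶ B) {n : SimplexCategoryᵒᵖ}
    (i : I1.{u}.obj n) (t : T.obj n) (γ : ((ihom I1.{u}).obj A).obj n) :
    ((ihom.ev I1.{u}).app B).app n (i, (pathFam c).app n (t, γ)) =
      c.app n (t, ((ihom.ev I1.{u}).app A).app n (i, γ)) := by
  have h := MonoidalClosed.uncurry_curry
    (mkHom (X := I1.{u} ⊗ (T ⊗ (ihom I1.{u}).obj A)) (Y := B)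
      (fun n z => c.app n (z.2.1, ((ihom.ev I1.{u}).app A).app n (z.1, z.2.2)))
      (fun n m θ z => by
        refine Eq.trans ?_ (app_map c θ _)
        refine congrArg (c.app m) (Prod.ext rfl ?_)
        exact app_map ((ihom.ev I1.{u}).app A) θ (z.1, z.2.2)))
  rw [MonoidalClosed.uncurry_eq] at h
  exact congrArg (fun k : (I1.{u} ⊗ (T ⊗ (ihom I1.{u}).obj A) ⟶ B) =>
    (ConcreteCategory.hom (k.app n)) (i, (t, γ))) h

theorem ev0_pathFam {T A B : SSet.{u}} (c : T ⊗ A ⟶ B) {n : SimplexCategoryᵒᵖ}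
    (t : T.obj n) (γ : ((ihom I1.{u}).obj A).obj n) :
    (ev0 B).app n ((pathFam c).app n (t, γ)) = c.app n (t, (ev0 A).app n γ) :=
  ev_pathFam c _ t γ

theorem ev1_pathFam {T A B : SSet.{u}} (c : T ⊗ A ⟶ B) {n : SimplexCategoryᵒᵖ}
    (t : T.obj n) (γ : ((ihom I1.{u}).obj A).obj n) :
    (ev1 B).app n ((pathFam c).app n (t, γ)) = c.app n (t, (ev1 A).app n γ) :=
  ev_pathFam c _ t γ


/-- Maps into an equality. -/
noncomputable def eqMk {T X A : SSet.{u}} (s t : X ⟶ A) (b : T ⟶ X)
    (γ : T ⟶ (ihom I1.{u}).obj A)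
    (h0 : ∀ n w, s.app n (b.app n w) = (ev0 A).app n (γ.app n w))
    (h1 : ∀ n w, t.app n (b.app n w) = (ev1 A).app n (γ.app n w)) : T ⟶ (eqO s t).left :=
  mkHom (fun n w => pbkMk _ _ (b.app n w) (γ.app n w) (Prod.ext (h0 n w) (h1 n w)))
    (fun _ _ θ w => pbk_ext (app_map b θ w) (app_map γ θ w))

theorem eqMk_hom {T X A : SSet.{u}} (s t : X ⟶ A) (b : T ⟶ X)
    (γ : T ⟶ (ihom I1.{u}).obj A)
    (h0 : ∀ n w, s.app n (b.app n w) = (ev0 A).app n (γ.app n w))
    (h1 : ∀ n w, t.app n (b.app n w) = (ev1 A).app n (γ.app n w)) (n : SimplexCategoryᵒᵖ)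
    (w : T.obj n) : (eqO s t).hom.app n ((eqMk s t b γ h0 h1).app n w) = b.app n w := rfl

theorem eqO_ev0 {X A : SSet.{u}} (s t : X ⟶ A) (n : SimplexCategoryᵒᵖ)
    (w : (eqO s t).left.obj n) : (ev0 A).app n w.1.2 = s.app n ((eqO s t).hom.app n w) :=
  (congrArg Prod.fst w.2).symm

theorem eqO_ev1 {X A : SSet.{u}} (s t : X ⟶ A) (n : SimplexCategoryᵒᵖ)
    (w : (eqO s t).left.obj n) : (ev1 A).app n w.1.2 = t.app n ((eqO s t).hom.app n w) :=
  (congrArg Prod.snd w.2).symm

/-- The path component of an equality. -/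
noncomputable def eqPath {X A : SSet.{u}} (s t : X ⟶ A) : (eqO s t).left ⟶ (ihom I1.{u}).obj A :=
  mkHom (fun _ w => w.1.2) (fun _ _ _ _ => rfl)

/-- Maps into a conjunction. -/
def andMk {T X : SSet.{u}} {F G : Over X} (b : T ⟶ X) (f : T ⟶ F.left) (g : T ⟶ G.left)
    (hf : ∀ n w, F.hom.app n (f.app n w) = b.app n w)
    (hg : ∀ n w, G.hom.app n (g.app n w) = b.app n w) : T ⟶ (andO F G).left :=
  mkHom (fun n w => pbkMk _ _ (f.app n w) (g.app n w) ((hf n w).trans (hg n w).symm))
    (fun _ _ θ w => pbk_ext (app_map f θ w) (app_map g θ w))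

theorem andMk_hom {T X : SSet.{u}} {F G : Over X} (b : T ⟶ X) (f : T ⟶ F.left) (g : T ⟶ G.left)
    (hf : ∀ n w, F.hom.app n (f.app n w) = b.app n w)
    (hg : ∀ n w, G.hom.app n (g.app n w) = b.app n w) (n : SimplexCategoryᵒᵖ) (w : T.obj n) :
    (andO F G).hom.app n ((andMk b f g hf hg).app n w) = b.app n w := hf n w

theorem impCurry_hom {T X : SSet.{u}} {F G : Over X} (b : T ⟶ X) (h : pbk b F.hom ⟶ G.left)
    (hh : ∀ n p, G.hom.app n (h.app n p) = b.app n p.1.1) (n : SimplexCategoryᵒᵖ) (w : T.obj n) :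
    (impO F G).hom.app n ((impCurry b h hh).app n w) = b.app n w := rfl

theorem piCurry_hom {T X Y : SSet.{u}} {π : Y ⟶ X} {F : Over Y} (b : T ⟶ X)
    (h : pbk b π ⟶ F.left) (hh : ∀ n p, F.hom.app n (h.app n p) = p.1.2)
    (n : SimplexCategoryᵒᵖ) (w : T.obj n) :
    (piO π F).hom.app n ((piCurry b h hh).app n w) = b.app n w := rfl

variable (M : SStructure.{u} sig)

/-- The tuple of two arguments. -/
def pairV {n : SimplexCategoryᵒᵖ} (b : Bool) (x : (M.car S3.A).obj n) (y : (M.car S3.B).obj n) :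
    (prodSSet (fun i => M.car (sig.dom b i))).obj n :=
  fun i => match i with
    | ⟨0, _⟩ => x
    | ⟨1, _⟩ => y

theorem tm_val {Γ : List S3} (b : Bool) (x : Var Γ S3.A) (y : Var Γ S3.B)
    {n : SimplexCategoryᵒᵖ} (z : (M.ctx (L := sig) Γ).obj n) :
    (M.termI (tm b x y)).app n z =
      (M.fn b).app n (pairV M b ((M.varI (L := sig) x).app n z) ((M.varI (L := sig) y).app n z)) := by
  refine congrArg ((M.fn b).app n) ?_
  funext i
  match i with
  | ⟨0, _⟩ => rfl
  | ⟨1, _⟩ => rfl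

/-- The formula `x = x'` in the context `x, x', y, y'`. -/
def eqX : Formula sig [S3.B, S3.B, S3.A, S3.A] :=
  .eq (A := S3.A) (.var (.succ (.succ (.succ .zero)))) (.var (.succ (.succ .zero)))

/-- The formula `y = y'` in the context `x, x', y, y'`. -/
def eqY : Formula sig [S3.B, S3.B, S3.A, S3.A] :=
  .eq (A := S3.B) (.var (.succ .zero)) (.var .zero)

section Body

variable {M}
variable {T P : SSet.{u}} (p : T ⟶ P) (x x' : T ⟶ M.car S3.A)
    (c : P ⊗ M.car S3.A ⟶ M.car S3.B) (q : P ⊗ M.car S3.A ⟶ (ihom I1.{u}).obj (M.car S3.C))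

/-- The point `(y', y, x', x)` of the context. -/
def bPt : T ⟶ M.ctx (L := sig) [S3.B, S3.B, S3.A, S3.A] :=
  mkHom (fun n w => (c.app n (p.app n w, x'.app n w), (c.app n (p.app n w, x.app n w),
      (x'.app n w, (x.app n w, PUnit.unit)))))
    (fun n m θ w => by
      refine Prod.ext ?_ (Prod.ext ?_ (Prod.ext (app_map x' θ w) (Prod.ext (app_map x θ w) rfl)))
      · refine Eq.trans ?_ (app_map c θ (p.app n w, x'.app n w))
        exact congrArg (c.app m) (Prod.ext (app_map p θ w) (app_map x' θ w))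
      · refine Eq.trans ?_ (app_map c θ (p.app n w, x.app n w))
        exact congrArg (c.app m) (Prod.ext (app_map p θ w) (app_map x θ w)))

/-- The induced path. -/
def gPt (z : T ⟶ M.car S3.A) : T ⟶ (ihom I1.{u}).obj (M.car S3.C) :=
  mkHom (fun n w => q.app n (p.app n w, z.app n w))
    (fun n m θ w => by
      refine Eq.trans ?_ (app_map q θ (p.app n w, z.app n w))
      exact congrArg (q.app m) (Prod.ext (app_map p θ w) (app_map z θ w)))

/-- The first three variables of the context. -/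
theorem varI_x {n : SimplexCategoryᵒᵖ} (w : T.obj n) :
    (M.varI (L := sig) (Γ := [S3.B, S3.B, S3.A, S3.A]) (.succ (.succ (.succ .zero)))).app n
      ((bPt p x x' c).app n w) = x.app n w := rfl

theorem varI_x' {n : SimplexCategoryᵒᵖ} (w : T.obj n) :
    (M.varI (L := sig) (Γ := [S3.B, S3.B, S3.A, S3.A]) (.succ (.succ .zero))).app n
      ((bPt p x x' c).app n w) = x'.app n w := rfl

theorem varI_y {n : SimplexCategoryᵒᵖ} (w : T.obj n) :
    (M.varI (L := sig) (Γ := [S3.B, S3.B, S3.A, S3.A]) (.succ .zero)).app n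
      ((bPt p x x' c).app n w) = c.app n (p.app n w, x.app n w) := rfl

theorem varI_y' {n : SimplexCategoryᵒᵖ} (w : T.obj n) :
    (M.varI (L := sig) (Γ := [S3.B, S3.B, S3.A, S3.A]) .zero).app n
      ((bPt p x x' c).app n w) = c.app n (p.app n w, x'.app n w) := rfl

variable (hq0 : ∀ n (a : P.obj n) (z : (M.car S3.A).obj n),
      (ev0 (M.car S3.C)).app n (q.app n (a, z)) =
        (M.fn false).app n (pairV M false z (c.app n (a, z))))
    (hq1 : ∀ n (a : P.obj n) (z : (M.car S3.A).obj n),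
      (ev1 (M.car S3.C)).app n (q.app n (a, z)) =
        (M.fn true).app n (pairV M true z (c.app n (a, z))))

/-- The proof of `R(x,y)`. -/
noncomputable def r1 : T ⟶ (M.interp (R (Γ := [S3.B, S3.B, S3.A, S3.A])
    (.succ (.succ (.succ .zero))) (.succ .zero))).left :=
  eqMk _ _ (bPt p x x' c) (gPt p q x)
    (fun n w => by
      refine (tm_val M _ _ _ _).trans ?_
      rw [varI_x, varI_y]
      exact (hq0 n _ _).symm)
    (fun n w => by
      refine (tm_val M _ _ _ _).trans ?_
      rw [varI_x, varI_y]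
      exact (hq1 n _ _).symm)

/-- The proof of `R(x',y')`. -/
noncomputable def r2 : T ⟶ (M.interp (R (Γ := [S3.B, S3.B, S3.A, S3.A])
    (.succ (.succ .zero)) .zero)).left :=
  eqMk _ _ (bPt p x x' c) (gPt p q x')
    (fun n w => by
      refine (tm_val M _ _ _ _).trans ?_
      rw [varI_x', varI_y']
      exact (hq0 n _ _).symm)
    (fun n w => by
      refine (tm_val M _ _ _ _).trans ?_
      rw [varI_x', varI_y']
      exact (hq1 n _ _).symm)

/-- The induced path in `B`. -/
noncomputable def yPath : pbk (bPt p x x' c) (M.interp eqX).hom ⟶ (ihom I1.{u}).obj (M.car S3.B) :=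
  mkHom (fun n z => (pathFam c).app n (p.app n z.1.1, (eqPath _ _).app n z.1.2))
    (fun n m θ z => by
      refine Eq.trans ?_ (app_map (pathFam c) θ (p.app n z.1.1, (eqPath _ _).app n z.1.2))
      exact congrArg ((pathFam c).app m) (Prod.ext (app_map p θ z.1.1)
        (app_map (eqPath _ _) θ z.1.2)))

/-- The proof of `y = y'` from `x = x'`. -/
noncomputable def eMap : pbk (bPt p x x' c) (M.interp eqX).hom ⟶ (M.interp eqY).left :=
  eqMk _ _ (pbkFst (bPt p x x' c) (M.interp eqX).hom ≫ bPt p x x' c) (yPath p x x' c)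
    (fun n z => by
      have h := eqO_ev0 _ _ n z.1.2
      have hp : (bPt p x x' c).app n z.1.1 = (M.interp eqX).hom.app n z.1.2 := z.2
      refine Eq.trans (varI_y p x x' c z.1.1) ?_
      refine Eq.trans ?_ (ev0_pathFam c (p.app n z.1.1) z.1.2.1.2).symm
      refine congrArg (fun a => c.app n (p.app n z.1.1, a)) ?_
      refine Eq.trans (varI_x p x x' c z.1.1).symm ?_
      rw [hp]
      exact h.symm)
    (fun n z => by
      have h := eqO_ev1 _ _ n z.1.2
      have hp : (bPt p x x' c).app n z.1.1 = (M.interp eqX).hom.app n z.1.2 := z.2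
      refine Eq.trans (varI_y' p x x' c z.1.1) ?_
      refine Eq.trans ?_ (ev1_pathFam c (p.app n z.1.1) z.1.2.1.2).symm
      refine congrArg (fun a => c.app n (p.app n z.1.1, a)) ?_
      refine Eq.trans (varI_x' p x x' c z.1.1).symm ?_
      rw [hp]
      exact h.symm)

/-- The proof of `x = x' ⇒ y = y'`. -/
noncomputable def eImp : T ⟶ (impO (M.interp eqX) (M.interp eqY)).left :=
  impCurry (bPt p x x' c) (eMap p x x' c) (fun n z => eqMk_hom _ _ _ _ _ _ n z)

/-- The proof of the body. -/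
noncomputable def bodyMap : T ⟶ (andO (andO (M.interp (R (Γ := [S3.B, S3.B, S3.A, S3.A])
    (.succ (.succ (.succ .zero))) (.succ .zero))) (M.interp (R (Γ := [S3.B, S3.B, S3.A, S3.A])
    (.succ (.succ .zero)) .zero))) (impO (M.interp eqX) (M.interp eqY))).left :=
  andMk (bPt p x x' c)
    (andMk (bPt p x x' c) (r1 p x x' c q hq0 hq1) (r2 p x x' c q hq0 hq1)
      (fun n z => eqMk_hom _ _ _ _ _ _ n z) (fun n z => eqMk_hom _ _ _ _ _ _ n z))
    (eImp p x x' c)
    (fun n z => andMk_hom _ _ _ _ _ n z) (fun n z => impCurry_hom _ _ _ n z)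

theorem bodyMap_hom {n : SimplexCategoryᵒᵖ} (w : T.obj n) :
    (andO (andO (M.interp (R (Γ := [S3.B, S3.B, S3.A, S3.A])
    (.succ (.succ (.succ .zero))) (.succ .zero))) (M.interp (R (Γ := [S3.B, S3.B, S3.A, S3.A])
    (.succ (.succ .zero)) .zero))) (impO (M.interp eqX) (M.interp eqY))).hom.app n
      ((bodyMap p x x' c q hq0 hq1).app n w) = (bPt p x x' c).app n w :=
  andMk_hom _ _ _ _ _ n w

end Body

/-- The evaluation of the premise: a point `x` is sent to `y(x)` and a path. -/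
noncomputable def evPrem : (M.interp prem).left ⊗ M.car S3.A ⟶
    (M.interp (R (Γ := [S3.B, S3.A]) (.succ .zero) .zero)).left :=
  mkHom (fun n z => (piEval (M.proj S3.A [])
      (M.interp (.ex S3.B (R (Γ := [S3.B, S3.A]) (.succ .zero) .zero)))).app n
        (pbkMk _ _ z.1 (z.2, PUnit.unit) rfl))
    (fun n m θ z => by
      refine Eq.trans ?_ (app_map (piEval (M.proj S3.A [])
        (M.interp (.ex S3.B (R (Γ := [S3.B, S3.A]) (.succ .zero) .zero)))) θ _)
      exact congrArg _ (pbk_ext rfl rfl))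

theorem evPrem_base {n : SimplexCategoryᵒᵖ} (t : (M.interp prem).left.obj n)
    (x : (M.car S3.A).obj n) :
    ((evPrem M).app n (t, x)).1.1.2 = (x, PUnit.unit) :=
  PiSimplex.isOver t n (𝟙 n) (x, PUnit.unit) rfl

/-- The choice function. -/
noncomputable def choiceFn : (M.interp prem).left ⊗ M.car S3.A ⟶ M.car S3.B :=
  mkHom (fun n z => ((evPrem M).app n z).1.1.1)
    (fun n m θ z => by
      have h := app_map (evPrem M) θ z
      exact congrArg (fun p => p.1.1.1) h)

/-- The path from `f(x,y(x))` to `g(x,y(x))`. -/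
noncomputable def choicePath : (M.interp prem).left ⊗ M.car S3.A ⟶
    (ihom I1.{u}).obj (M.car S3.C) :=
  mkHom (fun n z => ((evPrem M).app n z).1.2)
    (fun n m θ z => by
      have h := app_map (evPrem M) θ z
      exact congrArg (fun p => p.1.2) h)

theorem choicePath_ev0 {n : SimplexCategoryᵒᵖ} (t : (M.interp prem).left.obj n)
    (x : (M.car S3.A).obj n) :
    (ev0 (M.car S3.C)).app n ((choicePath M).app n (t, x)) =
      (M.fn false).app n (pairV M false x ((choiceFn M).app n (t, x))) := by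
  have h := ((evPrem M).app n (t, x)).2
  have h0 := congrArg Prod.fst h
  have h1 : (M.termI (tm (Γ := [S3.B, S3.A]) false (.succ .zero) .zero)).app n
      ((evPrem M).app n (t, x)).1.1 =
      (ev0 (M.car S3.C)).app n ((choicePath M).app n (t, x)) := h0
  rw [← h1, tm_val]
  have hb := evPrem_base M t x
  have : (M.varI (L := sig) (Γ := [S3.B, S3.A]) (.succ .zero)).app n
      ((evPrem M).app n (t, x)).1.1 = x := congrArg Prod.fst hb
  rw [this]
  rfl

theorem choicePath_ev1 {n : SimplexCategoryᵒᵖ} (t : (M.interp prem).left.obj n)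
    (x : (M.car S3.A).obj n) :
    (ev1 (M.car S3.C)).app n ((choicePath M).app n (t, x)) =
      (M.fn true).app n (pairV M true x ((choiceFn M).app n (t, x))) := by
  have h := ((evPrem M).app n (t, x)).2
  have h0 := congrArg Prod.snd h
  have h1 : (M.termI (tm (Γ := [S3.B, S3.A]) true (.succ .zero) .zero)).app n
      ((evPrem M).app n (t, x)).1.1 =
      (ev1 (M.car S3.C)).app n ((choicePath M).app n (t, x)) := h0
  rw [← h1, tm_val]
  have hb := evPrem_base M t x
  have : (M.varI (L := sig) (Γ := [S3.B, S3.A]) (.succ .zero)).app n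
      ((evPrem M).app n (t, x)).1.1 = x := congrArg Prod.fst hb
  rw [this]
  rfl

theorem sigO_hom_app {X Y : SSet.{u}} (π : Y ⟶ X) (F : Over Y) (n : SimplexCategoryᵒᵖ)
    (z : F.left.obj n) : (sigO π F).hom.app n z = π.app n (F.hom.app n z) := rfl

/-- The interpretation of the body. -/
noncomputable def bodyO : Over (M.ctx (L := sig) [S3.B, S3.B, S3.A, S3.A]) :=
  andO (andO (M.interp (R (Γ := [S3.B, S3.B, S3.A, S3.A])
    (.succ (.succ (.succ .zero))) (.succ .zero))) (M.interp (R (Γ := [S3.B, S3.B, S3.A, S3.A])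
    (.succ (.succ .zero)) .zero))) (impO (M.interp eqX) (M.interp eqY))

/-- The interpretation of `∃y ∃y'` of the body. -/
noncomputable def concl2O : Over (M.ctx (L := sig) [S3.A, S3.A]) :=
  sigO (M.proj S3.B [S3.A, S3.A]) (sigO (M.proj S3.B [S3.B, S3.A, S3.A]) (bodyO M))

theorem interp_choiceSentence : M.interp choiceSentence =
    impO (M.interp prem) (piO (M.proj S3.A []) (piO (M.proj S3.A [S3.A]) (concl2O M))) := by
  simp only [choiceSentence, body, SStructure.interp, concl2O, bodyO, eqX, eqY]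

/-- The second stage: a premise and two points `x, x'`. -/
noncomputable abbrev T2 : SSet.{u} :=
  pbk (pbkSnd (M.interp prem).hom (M.proj S3.A [])) (M.proj S3.A [S3.A])

/-- The premise. -/
noncomputable def t2P : T2 M ⟶ (M.interp prem).left :=
  pbkFst _ _ ≫ pbkFst _ _

/-- The two points. -/
noncomputable def t2C : T2 M ⟶ M.ctx (L := sig) [S3.A, S3.A] := pbkSnd _ _

/-- The point `x`. -/
noncomputable def t2x : T2 M ⟶ M.car S3.A :=
  t2C M ≫ M.varI (L := sig) (Γ := [S3.A, S3.A]) (.succ .zero)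

/-- The point `x'`. -/
noncomputable def t2x' : T2 M ⟶ M.car S3.A :=
  t2C M ≫ M.varI (L := sig) (Γ := [S3.A, S3.A]) .zero

/-- From the premise and two points to the body. -/
noncomputable def toBody : T2 M ⟶ (bodyO M).left :=
  bodyMap (t2P M) (t2x M) (t2x' M) (choiceFn M) (choicePath M)
    (fun _ a z => choicePath_ev0 M a z) (fun _ a z => choicePath_ev1 M a z)

theorem toBody_hom (n : SimplexCategoryᵒᵖ) (w : (T2 M).obj n) :
    (concl2O M).hom.app n ((toBody M).app n w) = (t2C M).app n w := by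
  have h := bodyMap_hom (t2P M) (t2x M) (t2x' M) (choiceFn M) (choicePath M)
    (fun _ a z => choicePath_ev0 M a z) (fun _ a z => choicePath_ev1 M a z) w
  exact congrArg (fun v => (M.proj S3.B [S3.A, S3.A]).app n
    ((M.proj S3.B [S3.B, S3.A, S3.A]).app n v)) h

/-- From the premise and one point to the conclusion. -/
noncomputable def toConcl1 : pbk (M.interp prem).hom (M.proj S3.A []) ⟶
    (piO (M.proj S3.A [S3.A]) (concl2O M)).left :=
  piCurry (π := M.proj S3.A [S3.A]) (F := concl2O M)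
      (pbkSnd (M.interp prem).hom (M.proj S3.A [])) (toBody M) (toBody_hom M)

/-- From the premise to the conclusion. -/
noncomputable def conclMap : (M.interp prem).left ⟶
    (piO (M.proj S3.A []) (piO (M.proj S3.A [S3.A]) (concl2O M))).left :=
  piCurry (π := M.proj S3.A []) (F := piO (M.proj S3.A [S3.A]) (concl2O M)) (M.interp prem).hom
    (toConcl1 M) (fun n w => piCurry_hom _ _ _ n w)

/-- The sentence is true in every structure of simplicial sets. -/
theorem choiceSentence_true : M.TrueIn choiceSentence := by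
  refine ⟨op (SimplexCategory.mk 0), ?_⟩
  rw [interp_choiceSentence]
  refine ⟨(impCurry (F := M.interp prem)
    (G := piO (M.proj S3.A []) (piO (M.proj S3.A [S3.A]) (concl2O M))) (𝟙 (𝟙_ SSet.{u}))
    (pbkSnd _ _ ≫ conclMap M) (fun _ _ => rfl)).app _ PUnit.unit⟩

end Truth

section Universal2

variable {X : SSet.{u}}

theorem hom_ext' {X Y : SSet.{u}} {f g : X ⟶ Y} (h : ∀ n (x : X.obj n), f.app n x = g.app n x) :
    f = g := by
  ext n x
  exact h n x

theorem comp_app' {X Y Z : SSet.{u}} (f : X ⟶ Y) (g : Y ⟶ Z) (n : SimplexCategoryᵒᵖ)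
    (x : X.obj n) : (f ≫ g).app n x = g.app n (f.app n x) := rfl

theorem app_eq_of_comp {X Y Z : SSet.{u}} {f : X ⟶ Y} {g : Y ⟶ Z} {h : X ⟶ Z}
    (e : f ≫ g = h) (n : SimplexCategoryᵒᵖ) (x : X.obj n) :
    g.app n (f.app n x) = h.app n x := by
  rw [← e]; rfl

theorem PiSimplex.fn_congr' {Y : SSet.{u}} {π : Y ⟶ X} {F : Over Y} {n m : SimplexCategoryᵒᵖ}
    {s s' : PiSimplex π F n} (hs : s = s') {θ θ' : n ⟶ m} {y y' : Y.obj m} (hθ : θ = θ')
    (hy : y = y') (h : π.app m y = X.map θ s.base) (h' : π.app m y' = X.map θ' s'.base) :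
    s.fn m θ y h = s'.fn m θ' y' h' := by
  subst hs hθ hy
  rfl

theorem ExpSimplex.fn_congr' {F G : Over X} {n m : SimplexCategoryᵒᵖ}
    {s s' : ExpSimplex F G n} (hs : s = s') {θ θ' : n ⟶ m} {a a' : F.left.obj m} (hθ : θ = θ')
    (ha : a = a') (h : F.hom.app m a = X.map θ s.base) (h' : F.hom.app m a' = X.map θ' s'.base) :
    s.fn m θ a h = s'.fn m θ' a' h' := by
  subst hs hθ ha
  rfl

/-- Universal property of `piO`: over `X`, maps `T ⟶ Π_π F` correspond (by transposition) to maps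
`T ×_X Y ⟶ F` over `Y`.  So `piO π` is right adjoint to pulling back along `π`. -/
theorem piO_universal {T Y : SSet.{u}} (π : Y ⟶ X) (F : Over Y) (b : T ⟶ X) :
    Function.Bijective (fun h : {h : pbk b π ⟶ F.left // h ≫ F.hom = pbkSnd b π} =>
      (⟨piCurry b h.1 (fun n p => app_eq_of_comp h.2 n p), hom_ext' (fun _ _ => rfl)⟩ :
        {k : T ⟶ (piO π F).left // k ≫ (piO π F).hom = b})) := by
  constructor
  · rintro ⟨h, hh⟩ ⟨h', hh'⟩ e
    apply Subtype.ext
    have e' := congrArg Subtype.val e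
    refine hom_ext' (fun n p => ?_)
    have e2 : ((piCurry b h (fun n p => app_eq_of_comp hh n p)).app n p.1.1 : PiSimplex π F n) =
      (piCurry b h' (fun n p => app_eq_of_comp hh' n p)).app n p.1.1 :=
      congrArg (fun k : (T ⟶ (piO π F).left) => (ConcreteCategory.hom (k.app n)) p.1.1) e'
    have hp : π.app n p.1.2 = X.map (𝟙 n) (b.app n p.1.1) := by
      rw [map_id_apply]; exact p.2.symm
    have e3 := PiSimplex.fn_congr' e2 (θ := 𝟙 n) rfl (y := p.1.2) rfl hp hp
    have e4 : h.app n (pbkMk b π (T.map (𝟙 n) p.1.1) p.1.2 (by rw [map_id_apply]; exact p.2)) =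
      h'.app n (pbkMk b π (T.map (𝟙 n) p.1.1) p.1.2 (by rw [map_id_apply]; exact p.2)) := e3
    have e5 : (pbkMk b π (T.map (𝟙 n) p.1.1) p.1.2 (by rw [map_id_apply]; exact p.2)) = p :=
      pbk_ext (map_id_apply T n _) rfl
    rwa [e5] at e4
  · rintro ⟨k, hk⟩
    have hbase : ∀ n (t : T.obj n), PiSimplex.base (k.app n t) = b.app n t :=
      fun n t => app_eq_of_comp hk n t
    have hmap : ∀ {n m : SimplexCategoryᵒᵖ} (θ : n ⟶ m) (t : T.obj n),
        k.app m (T.map θ t) = PiSimplex.map θ (k.app n t) := fun θ t => app_map k θ t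
    refine ⟨⟨mkHom (fun n p => PiSimplex.fn (k.app n p.1.1) n (𝟙 n) p.1.2 (by
        rw [map_id_apply, hbase]; exact p.2.symm)) (fun n m θ p => ?_), ?_⟩, ?_⟩
    · have h1 := PiSimplex.nat (k.app n p.1.1) n m (𝟙 n) θ p.1.2
        (by rw [map_id_apply, hbase]; exact p.2.symm)
        (by rw [Category.id_comp, app_map, hbase]; exact congrArg _ p.2.symm)
      refine Eq.trans ?_ h1
      refine (PiSimplex.fn_congr' (hmap θ p.1.1) rfl rfl _ ?_).trans ?_
      · rw [map_id_apply]
        exact (app_map π θ p.1.2).trans (congrArg (X.map θ) ((hbase n p.1.1).trans p.2)).symm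
      · exact PiSimplex.fn_congr' (s := k.app n p.1.1) rfl (by simp) rfl _ _
    · exact hom_ext' (fun n p => PiSimplex.isOver (k.app n p.1.1) n (𝟙 n) p.1.2 _)
    · apply Subtype.ext
      refine hom_ext' (fun n t => PiSimplex.ext' (hbase n t).symm (fun m θ y h₁ h₂ => ?_))
      refine (PiSimplex.fn_congr' (hmap θ t) rfl rfl _ ?_).trans ?_
      · rw [map_id_apply]; exact h₂
      · exact PiSimplex.fn_congr' (s := k.app n t) rfl (by simp) rfl _ _

/-- Universal property of `impO`: over `X`, maps `T ⟶ G ^ F` correspond (by transposition) to maps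
`T ×_X F ⟶ G`.  So `impO F G` is the exponential of the slice. -/
theorem impO_universal {T : SSet.{u}} (F G : Over X) (b : T ⟶ X) :
    Function.Bijective (fun h : {h : pbk b F.hom ⟶ G.left // h ≫ G.hom = pbkFst b F.hom ≫ b} =>
      (⟨impCurry b h.1 (fun n p => app_eq_of_comp h.2 n p), hom_ext' (fun _ _ => rfl)⟩ :
        {k : T ⟶ (impO F G).left // k ≫ (impO F G).hom = b})) := by
  constructor
  · rintro ⟨h, hh⟩ ⟨h', hh'⟩ e
    apply Subtype.ext
    have e' := congrArg Subtype.val e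
    refine hom_ext' (fun n p => ?_)
    have e2 : ((impCurry b h (fun n p => app_eq_of_comp hh n p)).app n p.1.1 : ExpSimplex F G n) =
      (impCurry b h' (fun n p => app_eq_of_comp hh' n p)).app n p.1.1 :=
      congrArg (fun k : (T ⟶ (impO F G).left) => (ConcreteCategory.hom (k.app n)) p.1.1) e'
    have hp : F.hom.app n p.1.2 = X.map (𝟙 n) (b.app n p.1.1) := by
      rw [map_id_apply]; exact p.2.symm
    have e3 := ExpSimplex.fn_congr' e2 (θ := 𝟙 n) rfl (a := p.1.2) rfl hp hp
    have e4 : h.app n (pbkMk b F.hom (T.map (𝟙 n) p.1.1) p.1.2 (by rw [map_id_apply]; exact p.2)) =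
      h'.app n (pbkMk b F.hom (T.map (𝟙 n) p.1.1) p.1.2 (by rw [map_id_apply]; exact p.2)) := e3
    have e5 : (pbkMk b F.hom (T.map (𝟙 n) p.1.1) p.1.2 (by rw [map_id_apply]; exact p.2)) = p :=
      pbk_ext (map_id_apply T n _) rfl
    rwa [e5] at e4
  · rintro ⟨k, hk⟩
    have hbase : ∀ n (t : T.obj n), ExpSimplex.base (k.app n t) = b.app n t :=
      fun n t => app_eq_of_comp hk n t
    have hmap : ∀ {n m : SimplexCategoryᵒᵖ} (θ : n ⟶ m) (t : T.obj n),
        k.app m (T.map θ t) = ExpSimplex.map θ (k.app n t) := fun θ t => app_map k θ t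
    refine ⟨⟨mkHom (fun n p => ExpSimplex.fn (k.app n p.1.1) n (𝟙 n) p.1.2 (by
        rw [map_id_apply, hbase]; exact p.2.symm)) (fun n m θ p => ?_), ?_⟩, ?_⟩
    · have h1 := ExpSimplex.nat (k.app n p.1.1) n m (𝟙 n) θ p.1.2
        (by rw [map_id_apply, hbase]; exact p.2.symm)
        (by rw [Category.id_comp, app_map, hbase]; exact congrArg _ p.2.symm)
      refine Eq.trans ?_ h1
      refine (ExpSimplex.fn_congr' (hmap θ p.1.1) rfl rfl _ ?_).trans ?_
      · rw [map_id_apply]
        exact (app_map F.hom θ p.1.2).trans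
          (congrArg (X.map θ) ((hbase n p.1.1).trans p.2)).symm
      · exact ExpSimplex.fn_congr' (s := k.app n p.1.1) rfl (by simp) rfl _ _
    · refine hom_ext' (fun n p => ?_)
      have h2 := ExpSimplex.isOver (k.app n p.1.1) n (𝟙 n) p.1.2 (by
        rw [map_id_apply, hbase]; exact p.2.symm)
      refine Eq.trans h2 ?_
      rw [map_id_apply, hbase]
      rfl
    · apply Subtype.ext
      refine hom_ext' (fun n t => ExpSimplex.ext' (hbase n t).symm (fun m θ y h₁ h₂ => ?_))
      refine (ExpSimplex.fn_congr' (hmap θ t) rfl rfl _ ?_).trans ?_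
      · rw [map_id_apply]; exact h₂
      · exact ExpSimplex.fn_congr' (s := k.app n t) rfl (by simp) rfl _ _

end Universal2

/-! ## Excluded middle for sentences -/

/-- Every instance of excluded middle for a sentence is true in every structure. -/
theorem lem_true {L : Signature} (M : SStructure.{u} L) (θ : Formula L []) :
    M.TrueIn (.or θ θ.neg) := by
  by_cases h : M.TrueIn θ
  · obtain ⟨n, ⟨a⟩⟩ := h
    exact ⟨n, ⟨(Sum.inl a : (M.interp θ).left.obj n ⊕ (M.interp θ.neg).left.obj n)⟩⟩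
  · have h' : ∀ n, (M.interp θ).left.obj n → False := fun n a => h ⟨n, ⟨a⟩⟩
    refine ⟨op (SimplexCategory.mk 0), ⟨(Sum.inr ?_ : (M.interp θ).left.obj _ ⊕
      (M.interp θ.neg).left.obj _)⟩⟩
    exact (
      { base := PUnit.unit
        fn := fun m _ a _ => (h' m a).elim
        isOver := fun m _ a _ => (h' m a).elim
        nat := fun m _ _ _ a _ _ => (h' m a).elim } :
      ExpSimplex (M.interp θ) (botO (𝟙_ SSet.{u})) (op (SimplexCategory.mk 0)))

end Pool.Agent.Helper162_hot
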